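import Mathlib
import Pool.Agent.Helper580.SimonBase

set_option autoImplicit false

open Classical Finset Pool.Agent.Helper580.Simon

namespace Pool.Agent.H673.Eps

variable {V : Type} [Fintype V]

/-- alternating sum of a function of the number of components -/
noncomputable def S (g : ℕ → ℝ) (E : Finset (Sym2 V)) : ℝ :=
  ∑ A ∈ E.powerset, (-1 : ℝ) ^ A.card * g (kk A)

lemma S_insert (g : ℕ → ℝ) {E : Finset (Sym2 V)} {e : Sym2 V} (he : e ∉ E) :
    S g (insert e E) = S g E - ∑ A ∈ E.powerset, (-1 : ℝ) ^ A.card * g (kk (insert e A)) := by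
  unfold S
  rw [Finset.sum_powerset_insert he, sub_eq_add_neg, ← Finset.sum_neg_distrib]
  congr 1
  refine Finset.sum_congr rfl fun A hA => ?_
  have heA : e ∉ A := fun h => he (mem_powerset.1 hA h)
  rw [card_insert_of_notMem heA, pow_succ]
  ring

/-- toggling an element -/
noncomputable def tog (t : Sym2 V) (A : Finset (Sym2 V)) : Finset (Sym2 V) :=
  if t ∈ A then A.erase t else insert t A

lemma mem_tog_of_ne {t x : Sym2 V} {A : Finset (Sym2 V)} (h : x ≠ t) : x ∈ tog t A ↔ x ∈ A := by
  unfold tog
  split_ifs with h1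
  · rw [mem_erase]; exact ⟨fun h => h.2, fun h' => ⟨h, h'⟩⟩
  · rw [mem_insert]; exact ⟨fun h' => h'.resolve_left h, fun h => Or.inr h⟩

lemma tog_tog (t : Sym2 V) (A : Finset (Sym2 V)) : tog t (tog t A) = A := by
  unfold tog
  by_cases h : t ∈ A
  · simp [h, insert_erase h]
  · simp [h, erase_insert h]

lemma tog_ne (t : Sym2 V) (A : Finset (Sym2 V)) : tog t A ≠ A := by
  intro h
  unfold tog at h
  by_cases h1 : t ∈ A
  · rw [if_pos h1] at h
    have : t ∈ A.erase t := by rw [h]; exact h1
    simp at this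
  · rw [if_neg h1] at h
    exact h1 (by rw [← h]; exact mem_insert_self _ _)

lemma tog_sign (t : Sym2 V) (A : Finset (Sym2 V)) :
    (-1 : ℝ) ^ (tog t A).card = - (-1 : ℝ) ^ A.card := by
  unfold tog
  by_cases h : t ∈ A
  · rw [if_pos h]
    have := card_erase_add_one h
    rw [← this, pow_succ]; ring
  · rw [if_neg h, card_insert_of_notMem h, pow_succ]; ring

lemma tog_kk {e t : Sym2 V} {A : Finset (Sym2 V)} {a b : V} (ht : t = s(a, b)) (hte : t ≠ e)
    (hr : Rch (insert e (A.erase t)) a b) : kk (insert e (tog t A)) = kk (insert e A) := by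
  subst ht
  have key : ∀ B : Finset (Sym2 V), Rch (insert e B) a b → 
      kk (insert e (insert s(a, b) B)) = kk (insert e B) := by
    intro B hB
    rw [Finset.insert_comm]
    exact kk_insert_of_rch hB
  unfold tog
  by_cases h : s(a, b) ∈ A
  · rw [if_pos h]
    have := key (A.erase s(a, b)) hr
    rw [insert_erase h] at this
    exact this.symm
  · rw [if_neg h]
    rw [erase_eq_of_notMem h] at hr
    exact key A hr

/-- adding an edge at a vertex all of whose other neighbours are adjacent to the new neighbour -/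
lemma S_step (g : ℕ → ℝ) {F : Finset (Sym2 V)} {v w : V} (hvw : v ≠ w) (he : s(v, w) ∉ F)
    (hloop : ∀ a : V, s(a, a) ∉ F) (hcl : ∀ u : V, s(v, u) ∈ F → s(w, u) ∈ F) :
    S g (insert s(v, w) F) = S g F - S (fun c => g (c - 1)) (F.filter fun d => v ∉ d) := by
  rw [S_insert g he]
  congr 1
  -- choice of the toggled edge
  have hch : ∀ B : Finset (Sym2 V), ∃ t : Sym2 V, (∃ d ∈ B, v ∈ d) →
      ∃ u, s(v, u) ∈ B ∧ t = s(w, u) := by
    intro B
    by_cases h : ∃ d ∈ B, v ∈ d
    · obtain ⟨d, hd, hvd⟩ := h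
      obtain ⟨u, rfl⟩ := Sym2.mem_iff_exists.1 hvd
      exact ⟨s(w, u), fun _ => ⟨u, hd, rfl⟩⟩
    · exact ⟨s(v, v), fun h' => absurd h' h⟩
  choose t ht using hch
  rw [← Finset.sum_filter_add_sum_filter_not F.powerset (fun A => ∃ d ∈ A, v ∈ d)]
  have hzero : ∑ A ∈ F.powerset.filter (fun A => ∃ d ∈ A, v ∈ d),
      (-1 : ℝ) ^ A.card * g (kk (insert s(v, w) A)) = 0 := by
    -- properties of the toggled edge
    have hprop : ∀ A ∈ F.powerset.filter (fun A => ∃ d ∈ A, v ∈ d),
        ∃ u, s(v, u) ∈ A ∧ t (A.filter fun d => v ∈ d) = s(w, u) ∧ u ≠ v ∧ u ≠ w ∧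
          v ∉ s(w, u) ∧ s(w, u) ∈ F := by
      intro A hA
      rw [mem_filter, mem_powerset] at hA
      obtain ⟨hAF, d, hd, hvd⟩ := hA
      obtain ⟨u, hu, htu⟩ := ht (A.filter fun d => v ∈ d) ⟨d, mem_filter.2 ⟨hd, hvd⟩, hvd⟩
      have huA : s(v, u) ∈ A := (mem_filter.1 hu).1
      have huv : u ≠ v := by
        rintro rfl
        exact hloop u (hAF huA)
      have huw : u ≠ w := by
        rintro rfl
        exact he (hAF huA)
      refine ⟨u, huA, htu, huv, huw, ?_, hcl u (hAF huA)⟩
      rw [Sym2.mem_iff]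
      push Not
      exact ⟨hvw, huv.symm⟩
    refine Finset.sum_involution (fun A _ => tog (t (A.filter fun d => v ∈ d)) A) ?_ ?_ ?_ ?_
    · intro A hA
      obtain ⟨u, huA, htu, huv, huw, hvt, htF⟩ := hprop A hA
      rw [htu, tog_sign]
      have hne : s(w, u) ≠ s(v, w) := by
        intro h
        apply hvt
        rw [h]; simp
      have hk : kk (insert s(v, w) (tog s(w, u) A)) = kk (insert s(v, w) A) := by
        refine tog_kk rfl hne ?_
        have h1 : Rch (insert s(v, w) (A.erase s(w, u))) v w := Rch.edge (mem_insert_self _ _)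
        have h2 : Rch (insert s(v, w) (A.erase s(w, u))) v u := by
          apply Rch.edge
          apply mem_insert_of_mem
          rw [mem_erase]
          refine ⟨?_, huA⟩
          intro h
          apply hvt
          rw [← h]; simp
        exact h1.symm.trans h2
      rw [hk]; ring
    · intro A hA _
      exact tog_ne _ _
    · intro A hA
      obtain ⟨u, huA, htu, huv, huw, hvt, htF⟩ := hprop A hA
      rw [mem_filter, mem_powerset] at hA ⊢
      rw [htu]
      constructor
      · intro x hx
        by_cases hxt : x = s(w, u)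
        · rw [hxt]; exact htF
        · exact hA.1 ((mem_tog_of_ne hxt).1 hx)
      · refine ⟨s(v, u), ?_, by simp⟩
        rw [mem_tog_of_ne]
        · exact huA
        · intro h
          apply hvt
          rw [← h]; simp
    · intro A hA
      obtain ⟨u, huA, htu, huv, huw, hvt, htF⟩ := hprop A hA
      have hfil : (tog (t (A.filter fun d => v ∈ d)) A).filter (fun d => v ∈ d) =
          A.filter fun d => v ∈ d := by
        rw [htu]
        ext x
        rw [mem_filter, mem_filter]
        constructor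
        · rintro ⟨h1, h2⟩
          have : x ≠ s(w, u) := fun h => hvt (h ▸ h2)
          exact ⟨(mem_tog_of_ne this).1 h1, h2⟩
        · rintro ⟨h1, h2⟩
          have : x ≠ s(w, u) := fun h => hvt (h ▸ h2)
          exact ⟨(mem_tog_of_ne this).2 h1, h2⟩
      show tog (t ((tog (t (A.filter fun d => v ∈ d)) A).filter fun d => v ∈ d))
        (tog (t (A.filter fun d => v ∈ d)) A) = A
      rw [hfil, tog_tog]
  rw [hzero, zero_add]
  unfold S
  have hset : F.powerset.filter (fun A => ¬ ∃ d ∈ A, v ∈ d) = (F.filter fun d => v ∉ d).powerset := by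
    ext A
    rw [mem_filter, mem_powerset, mem_powerset]
    push Not
    constructor
    · rintro ⟨h1, h2⟩ x hx
      exact mem_filter.2 ⟨h1 hx, h2 x hx⟩
    · intro h
      exact ⟨fun x hx => (mem_filter.1 (h hx)).1, fun x hx => (mem_filter.1 (h hx)).2⟩
  rw [hset]
  refine Finset.sum_congr rfl fun A hA => ?_
  have hA' : ∀ d ∈ A, v ∉ d := fun d hd => (mem_filter.1 (mem_powerset.1 hA hd)).2
  have hnr : ¬ Rch A v w := by
    intro h
    have : w = v := h.induct (fun x => x = v) rfl (by
      rintro c d hcd _ rfl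
      exact absurd (by simp) (hA' _ hcd))
    exact hvw this.symm
  have := kk_insert_of_not_rch hnr
  have h2 : kk (insert s(v, w) A) = kk A - 1 := by omega
  rw [h2]

lemma kk_pos [Nonempty V] (A : Finset (Sym2 V)) : 1 ≤ kk A := by
  unfold kk
  have : Nonempty (SimpleGraph.fromEdgeSet (A : Set (Sym2 V))).ConnectedComponent :=
    ⟨SimpleGraph.connectedComponentMk _ (Classical.arbitrary V)⟩
  exact Nat.card_pos

/-- the edge set obtained from `F0` by joining `v` to the vertices of `K` -/
noncomputable def EK (F0 : Finset (Sym2 V)) (v : V) (K : Finset V) : Finset (Sym2 V) :=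
  F0 ∪ K.image fun u => s(v, u)

lemma S_EK (g : ℕ → ℝ) {F0 : Finset (Sym2 V)} {v : V} (hloop : ∀ a : V, s(a, a) ∉ F0)
    (hv : ∀ d ∈ F0, v ∉ d) (K : Finset V) (hvK : v ∉ K)
    (hcl : ∀ a ∈ K, ∀ b ∈ K, a ≠ b → s(a, b) ∈ F0) :
    S g (EK F0 v K) = S g F0 - K.card * S (fun c => g (c - 1)) F0 := by
  induction K using Finset.induction_on with
  | empty => simp [EK]
  | insert w K hw ih =>
    have hvK' : v ∉ K := fun h => hvK (mem_insert_of_mem h)
    have hvw : v ≠ w := fun h => hvK (h ▸ mem_insert_self _ _)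
    have ih' := ih hvK' (fun a ha b hb => hcl a (mem_insert_of_mem ha) b (mem_insert_of_mem hb))
    have hE : EK F0 v (insert w K) = insert s(v, w) (EK F0 v K) := by
      unfold EK
      rw [image_insert]
      ext x
      simp only [mem_union, mem_insert]
      tauto
    have hmem : ∀ u, s(v, u) ∈ EK F0 v K → u ∈ K := by
      intro u hu
      unfold EK at hu
      rw [mem_union, mem_image] at hu
      rcases hu with h | ⟨x, hx, hxu⟩
      · exact absurd (by simp) (hv _ h)
      · rcases Sym2.eq_iff.1 hxu with ⟨_, h2⟩ | ⟨h1, h2⟩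
        · exact h2 ▸ hx
        · rw [h2] at hx; exact absurd hx hvK'
    rw [hE, S_step g hvw, ih', card_insert_of_notMem hw]
    · have hf : (EK F0 v K).filter (fun d => v ∉ d) = F0 := by
        ext x
        unfold EK
        rw [mem_filter, mem_union, mem_image]
        constructor
        · rintro ⟨h1 | ⟨u, hu, rfl⟩, h2⟩
          · exact h1
          · exact absurd (by simp) h2
        · intro h
          exact ⟨Or.inl h, hv x h⟩
      rw [hf]
      push_cast
      ring
    · intro h
      exact hw (hmem w h)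
    · intro a ha
      unfold EK at ha
      rw [mem_union, mem_image] at ha
      rcases ha with h | ⟨x, hx, hxa⟩
      · exact hloop a h
      · rcases Sym2.eq_iff.1 hxa with ⟨h1, h2⟩ | ⟨h1, h2⟩
        · apply hvK'; rw [h1, ← h2]; exact hx
        · apply hvK'; rw [h1, ← h2]; exact hx
    · intro u hu
      have huK := hmem u hu
      unfold EK
      rw [mem_union]
      left
      exact hcl w (mem_insert_self _ _) u (mem_insert_of_mem huK) (fun h => hw (h ▸ huK))

/-- positivity -/
lemma sigma_pos (E : Finset (Sym2 V)) : ∀ B : Finset (Sym2 V),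
    0 ≤ ∑ A ∈ E.powerset, (-1 : ℝ) ^ (A.card + kk (A ∪ B) + kk B) ∧
    ((∀ a b : V, s(a, b) ∈ E → ¬ Rch B a b) →
      0 < ∑ A ∈ E.powerset, (-1 : ℝ) ^ (A.card + kk (A ∪ B) + kk B)) := by
  induction E using Finset.induction_on with
  | empty =>
    intro B
    have : (-1 : ℝ) ^ (kk B + kk B) = 1 := by
      rw [← two_mul, pow_mul]; norm_num
    simp [this]
  | insert e E he ih =>
    intro B
    induction e using Sym2.ind with
    | _ a b =>
    have hsplit : ∑ A ∈ (insert s(a, b) E).powerset, (-1 : ℝ) ^ (A.card + kk (A ∪ B) + kk B) =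
        ∑ A ∈ E.powerset, (-1 : ℝ) ^ (A.card + kk (A ∪ B) + kk B) -
        ∑ A ∈ E.powerset, (-1 : ℝ) ^ (A.card + kk (A ∪ insert s(a, b) B) + kk B) := by
      rw [Finset.sum_powerset_insert he, sub_eq_add_neg, ← Finset.sum_neg_distrib]
      congr 1
      refine Finset.sum_congr rfl fun A hA => ?_
      have heA : s(a, b) ∉ A := fun h => he (mem_powerset.1 hA h)
      rw [card_insert_of_notMem heA]
      have : insert s(a, b) A ∪ B = A ∪ insert s(a, b) B := by
        ext x; simp only [mem_union, mem_insert]; tauto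
      rw [this]
      rw [show A.card + 1 + kk (A ∪ insert s(a, b) B) + kk B =
        (A.card + kk (A ∪ insert s(a, b) B) + kk B) + 1 by ring, pow_succ]
      ring
    rw [hsplit]
    by_cases hr : Rch B a b
    · have hz : ∑ A ∈ E.powerset, (-1 : ℝ) ^ (A.card + kk (A ∪ insert s(a, b) B) + kk B) =
          ∑ A ∈ E.powerset, (-1 : ℝ) ^ (A.card + kk (A ∪ B) + kk B) := by
        refine Finset.sum_congr rfl fun A _ => ?_
        have : A ∪ insert s(a, b) B = insert s(a, b) (A ∪ B) := by
          ext x; simp only [mem_union, mem_insert]; tauto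
        rw [this, kk_insert_of_rch (hr.mono subset_union_right)]
      rw [hz, sub_self]
      refine ⟨le_refl _, fun h => absurd hr (h a b (mem_insert_self _ _))⟩
    · have hk := kk_insert_of_not_rch hr
      have hz : ∑ A ∈ E.powerset, (-1 : ℝ) ^ (A.card + kk (A ∪ insert s(a, b) B) + kk B) =
          - ∑ A ∈ E.powerset, (-1 : ℝ) ^ (A.card + kk (A ∪ insert s(a, b) B) +
            kk (insert s(a, b) B)) := by
        rw [← Finset.sum_neg_distrib]
        refine Finset.sum_congr rfl fun A _ => ?_
        rw [← hk, ← add_assoc, pow_succ]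
        ring
      rw [hz, sub_neg_eq_add]
      have h1 := ih B
      have h2 := ih (insert s(a, b) B)
      refine ⟨add_nonneg h1.1 h2.1, fun h => ?_⟩
      exact add_pos_of_pos_of_nonneg (h1.2 fun c d hcd => h c d (mem_insert_of_mem hcd)) h2.1

end Pool.Agent.H673.Eps
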