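import Pool.Agent.H673.Eps.Core

set_option autoImplicit false

open Classical Finset Pool.Agent.Helper580.Simon

namespace Pool.Agent.H673.Eps

variable {V : Type} [Fintype V]

lemma rch_empty {a b : V} (h : Rch (∅ : Finset (Sym2 V)) a b) : a = b := by
  have : b = a := h.induct (fun x => x = a) rfl (by
    intro c d hcd
    simp at hcd)
  exact this.symm

lemma N0_ne {E : Finset (Sym2 V)} (hloop : ∀ a : V, s(a, a) ∉ E) :
    S (fun c => (-1 : ℝ) ^ c) E ≠ 0 := by
  have h := (sigma_pos E ∅).2 (by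
    intro a b hab hr
    have := rch_empty hr
    subst this
    exact hloop a hab)
  intro h0
  have : ∑ A ∈ E.powerset, (-1 : ℝ) ^ (A.card + kk (A ∪ ∅) + kk (∅ : Finset (Sym2 V))) =
      (-1 : ℝ) ^ (kk (∅ : Finset (Sym2 V))) * S (fun c => (-1 : ℝ) ^ c) E := by
    unfold S
    rw [Finset.mul_sum]
    refine Finset.sum_congr rfl fun A _ => ?_
    rw [union_empty, pow_add, pow_add]
    ring
  rw [this, h0, mul_zero] at h
  exact lt_irrefl _ h

lemma shift1 [Nonempty V] (E : Finset (Sym2 V)) :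
    S (fun c => (-1 : ℝ) ^ (c - 1)) E = - S (fun c => (-1 : ℝ) ^ c) E := by
  unfold S
  rw [← Finset.sum_neg_distrib]
  refine Finset.sum_congr rfl fun A _ => ?_
  obtain ⟨c, hc⟩ := Nat.exists_eq_add_of_le (kk_pos A)
  have hs : 1 + c - 1 = c := by omega
  simp only [hc, hs, pow_add]
  ring

lemma shift3 [Nonempty V] (n : ℝ) (E : Finset (Sym2 V)) :
    S (fun c => (n - ((c - 1 : ℕ) : ℝ)) * (-1 : ℝ) ^ (c - 1)) E =
      - S (fun c => (n - (c : ℝ)) * (-1 : ℝ) ^ c) E - S (fun c => (-1 : ℝ) ^ c) E := by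
  unfold S
  rw [← Finset.sum_neg_distrib, ← Finset.sum_sub_distrib]
  refine Finset.sum_congr rfl fun A _ => ?_
  obtain ⟨c, hc⟩ := Nat.exists_eq_add_of_le (kk_pos A)
  have hs : 1 + c - 1 = c := by omega
  simp only [hc, hs, pow_add]
  push_cast
  ring

/-- the invariant as a quotient of the two alternating sums -/
noncomputable def inv (n : ℝ) (E : Finset (Sym2 V)) : ℝ :=
  S (fun c => (n - (c : ℝ)) * (-1 : ℝ) ^ c) E / S (fun c => (-1 : ℝ) ^ c) E

theorem inv_EK [Nonempty V] (n : ℝ) {F0 : Finset (Sym2 V)} {v : V}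
    (hloop : ∀ a : V, s(a, a) ∉ F0) (hv : ∀ d ∈ F0, v ∉ d) (K : Finset V) (hvK : v ∉ K)
    (hcl : ∀ a ∈ K, ∀ b ∈ K, a ≠ b → s(a, b) ∈ F0) :
    inv n (EK F0 v K) = inv n F0 + K.card / (K.card + 1) := by
  unfold inv
  rw [S_EK _ hloop hv K hvK hcl, S_EK _ hloop hv K hvK hcl, shift1, shift3]
  have h0 := N0_ne hloop
  set N := S (fun c => (-1 : ℝ) ^ c) F0
  set M := S (fun c => (n - (c : ℝ)) * (-1 : ℝ) ^ c) F0
  have hk : (0 : ℝ) < (K.card : ℝ) + 1 := by positivity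
  have e1 : N - (K.card : ℝ) * -N = (K.card + 1) * N := by ring
  rw [e1]
  field_simp
  ring

theorem drop (n : ℝ) (G : SimpleGraph V) (E : Finset (Sym2 V)) (hE : ∀ x, x ∈ E ↔ x ∈ G.edgeSet)
    (v w : V) (hw : G.Adj v w) (hcl : ∀ a b, G.Adj v a → G.Adj v b → a ≠ b → G.Adj a b)
    (E' : Finset (Sym2 V)) (hE' : ∀ x, x ∈ E' ↔ x ∈ E ∧ x ≠ s(v, w))
    (k : ℕ) (hk : k = (univ.filter fun u => G.Adj v u).card) :
    inv n E - inv n E' = 1 / (k * (k + 1)) := by
  have : Nonempty V := ⟨v⟩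
  set F0 := E.filter fun d => v ∉ d with hF0
  set K : Finset V := univ.filter fun u => G.Adj v u with hK
  have hmemK : ∀ u, u ∈ K ↔ G.Adj v u := by intro u; rw [hK, mem_filter]; simp
  have hwK : w ∈ K := (hmemK w).2 hw
  have hloop : ∀ a : V, s(a, a) ∉ F0 := by
    intro a ha
    rw [hF0, mem_filter, hE, SimpleGraph.mem_edgeSet] at ha
    exact G.loopless.irrefl a ha.1
  have hv : ∀ d ∈ F0, v ∉ d := fun d hd => (mem_filter.1 hd).2
  have hvK : v ∉ K := fun h => G.loopless.irrefl v ((hmemK v).1 h)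
  have hclK : ∀ a ∈ K, ∀ b ∈ K, a ≠ b → s(a, b) ∈ F0 := by
    intro a ha b hb hab
    rw [hmemK] at ha hb
    rw [hF0, mem_filter, hE, SimpleGraph.mem_edgeSet]
    refine ⟨hcl a b ha hb hab, ?_⟩
    rw [Sym2.mem_iff]
    push Not
    exact ⟨G.ne_of_adj ha, G.ne_of_adj hb⟩
  have e1 : E = EK F0 v K := by
    ext x
    unfold EK
    rw [mem_union, mem_image]
    constructor
    · intro hx
      by_cases hvx : v ∈ x
      · obtain ⟨u, rfl⟩ := Sym2.mem_iff_exists.1 hvx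
        right
        rw [hE, SimpleGraph.mem_edgeSet] at hx
        exact ⟨u, (hmemK u).2 hx, rfl⟩
      · exact Or.inl (mem_filter.2 ⟨hx, hvx⟩)
    · rintro (hx | ⟨u, hu, rfl⟩)
      · exact (mem_filter.1 hx).1
      · rw [hE, SimpleGraph.mem_edgeSet]
        exact (hmemK u).1 hu
  have e2 : E' = EK F0 v (K.erase w) := by
    ext x
    unfold EK
    rw [mem_union, mem_image, hE']
    constructor
    · rintro ⟨hx, hne⟩
      by_cases hvx : v ∈ x
      · obtain ⟨u, rfl⟩ := Sym2.mem_iff_exists.1 hvx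
        right
        rw [hE, SimpleGraph.mem_edgeSet] at hx
        refine ⟨u, mem_erase.2 ⟨?_, (hmemK u).2 hx⟩, rfl⟩
        rintro rfl
        exact hne rfl
      · exact Or.inl (mem_filter.2 ⟨hx, hvx⟩)
    · rintro (hx | ⟨u, hu, rfl⟩)
      · refine ⟨(mem_filter.1 hx).1, ?_⟩
        rintro rfl
        exact (mem_filter.1 hx).2 (by simp)
      · rw [mem_erase] at hu
        rw [hE, SimpleGraph.mem_edgeSet]
        refine ⟨(hmemK u).1 hu.2, ?_⟩
        intro h
        rcases Sym2.eq_iff.1 h with ⟨_, h2⟩ | ⟨h1, h2⟩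
        · exact hu.1 h2
        · exact hvK (h2 ▸ hu.2)
  rw [e1, e2, inv_EK n hloop hv K hvK hclK, inv_EK n hloop hv (K.erase w)
    (fun h => hvK (mem_of_mem_erase h))
    (fun a ha b hb => hclK a (mem_of_mem_erase ha) b (mem_of_mem_erase hb))]
  have hc : (K.erase w).card + 1 = K.card := card_erase_add_one hwK
  obtain ⟨j, hj⟩ : ∃ j, j = (K.erase w).card := ⟨_, rfl⟩
  rw [← hj] at hc ⊢
  rw [hk, ← hc]
  have h1 : (0 : ℝ) < (j : ℝ) + 1 := by positivity
  have h2 : (0 : ℝ) < (j : ℝ) + 1 + 1 := by positivity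
  push_cast
  field_simp
  ring

end Pool.Agent.H673.Eps
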